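import Pool.Agent.U442.Htj.Grp

/-!
The product of the orders of the alternating groups divides the order of the group through which the
homomorphisms factor; the exponent of five in the order of the general linear group modulo two.
-/

set_option autoImplicit false

namespace Pool.Agent.U442.Htj

open Equiv

section fam

variable {Γ ι : Type*} [Group Γ] {Ω : ι → Type*} [∀ i, Fintype (Ω i)]
  [∀ i, DecidableEq (Ω i)] (φ : ∀ i, Γ →* Perm (Ω i))

theorem prod_card_dvd (h5 : ∀ i, 5 ≤ Nat.card (Ω i))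
    (hφ : ∀ i, alternatingGroup (Ω i) ≤ (φ i).range)
    (hind : ∀ i j, i ≠ j → ∃ s, φ j s = 1 ∧ φ i s ≠ 1) {H : Type*} [Group H] [Finite H]
    (ψ : Γ →* H) (S : Finset ι) (hS : ∀ i ∈ S, ∀ s, ψ s = 1 → φ i s = 1) :
    ∏ i ∈ S, Nat.card (alternatingGroup (Ω i)) ∣ Nat.card H := by
  classical
  let Φ : Γ →* (∀ i : S, Perm (Ω i)) := MonoidHom.pi fun i => φ i
  let j : (∀ i : S, alternatingGroup (Ω (i : ι))) →* (∀ i : S, Perm (Ω (i : ι))) :=
    { toFun := fun π i => (π i : Perm (Ω (i : ι)))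
      map_one' := rfl
      map_mul' := fun _ _ => rfl }
  have hj : Function.Injective j := by
    intro π π' h
    funext i
    exact Subtype.val_injective (congrFun h i)
  have hle : j.range ≤ Φ.range := by
    rintro _ ⟨π, rfl⟩
    obtain ⟨s, -, hs⟩ := joint_alt φ h5 hφ hind S ∅ (Finset.disjoint_empty_right _)
      (fun i => if h : i ∈ S then ((π ⟨i, h⟩ : alternatingGroup (Ω i)) : Perm (Ω i)) else 1)
      (fun i hi => by
        rw [dif_pos hi]
        exact (π ⟨i, hi⟩).2)
    refine ⟨s, ?_⟩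
    funext i
    have h1 := hs i i.2
    rw [dif_pos i.2] at h1
    exact h1
  have h1 : Nat.card j.range = ∏ i ∈ S, Nat.card (alternatingGroup (Ω i)) := by
    rw [← Nat.card_congr (MonoidHom.ofInjective hj).toEquiv, Nat.card_pi,
      Finset.prod_coe_sort S (fun i => Nat.card (alternatingGroup (Ω i)))]
  rw [← h1]
  have h2 : ψ.ker ≤ Φ.ker := by
    intro s hs
    rw [MonoidHom.mem_ker] at hs ⊢
    funext i
    exact hS i i.2 s hs
  calc Nat.card j.range ∣ Nat.card Φ.range := Subgroup.card_dvd_of_le hle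
    _ = Φ.ker.index := (Subgroup.index_ker Φ).symm
    _ ∣ ψ.ker.index := Subgroup.index_dvd_of_le h2
    _ = Nat.card ψ.range := Subgroup.index_ker ψ
    _ ∣ Nat.card H := Subgroup.card_subgroup_dvd_card _

end fam

section val

instance : Fact (Nat.Prime 5) := ⟨by norm_num⟩

theorem val_four (m : ℕ) (hm : m ≠ 0) :
    padicValNat 5 (2 ^ (4 * m) - 1) = 1 + padicValNat 5 m := by
  have h1 := padicValNat.pow_sub_pow (p := 5) (hp1 := by decide) (x := 16) (y := 1) (by norm_num)
    (by norm_num) (by norm_num) hm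
  rw [one_pow] at h1
  have h2 : padicValNat 5 (16 - 1) = 1 := by
    have : (16 - 1 : ℕ) = 5 * 3 := by norm_num
    rw [this, padicValNat.mul (by norm_num) (by norm_num), padicValNat_self,
      padicValNat.eq_zero_of_not_dvd (by norm_num)]
  rw [h2] at h1
  rw [← h1, pow_mul]
  norm_num

theorem val_not_four (j : ℕ) (hj : ¬ 4 ∣ j) : padicValNat 5 (2 ^ j - 1) = 0 := by
  apply padicValNat.eq_zero_of_not_dvd
  intro h
  have h1 : 2 ^ j % 5 = 1 := by
    have h2 : 1 ≤ 2 ^ j := Nat.one_le_two_pow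
    omega
  have h3 : 2 ^ j % 5 = 2 ^ (j % 4) % 5 := by
    conv_lhs => rw [← Nat.div_add_mod j 4, pow_add, pow_mul]
    rw [Nat.mul_mod, Nat.pow_mod]
    norm_num
  have h4 : j % 4 ≠ 0 := fun h => hj (Nat.dvd_of_mod_eq_zero h)
  have h5 : j % 4 < 4 := Nat.mod_lt _ (by norm_num)
  rw [h3] at h1
  interval_cases (j % 4) <;> simp_all

theorem sum_val (d : ℕ) : ∑ j ∈ Finset.range d, padicValNat 5 (2 ^ (j + 1) - 1) =
    d / 4 + padicValNat 5 (d / 4).factorial := by
  induction d with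
  | zero => simp
  | succ d ih =>
    rw [Finset.sum_range_succ, ih]
    by_cases h : 4 ∣ d + 1
    · obtain ⟨m, hm⟩ := h
      have h1 : (d + 1) / 4 = m := by omega
      have h2 : d / 4 = m - 1 := by omega
      have h3 : m ≠ 0 := by omega
      rw [h1, h2, hm, val_four m h3]
      obtain ⟨l, rfl⟩ := Nat.exists_eq_succ_of_ne_zero h3
      rw [Nat.succ_sub_one, Nat.factorial_succ, padicValNat.mul (by omega)
        (Nat.factorial_ne_zero l)]
      simp only [Nat.succ_eq_add_one]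
      omega
    · have h1 : (d + 1) / 4 = d / 4 := by omega
      rw [h1, val_not_four _ h, add_zero]

theorem sum_val_le (d : ℕ) :
    16 * ∑ j ∈ Finset.range d, padicValNat 5 (2 ^ (j + 1) - 1) ≤ 5 * d := by
  rw [sum_val]
  have h1 := sub_one_mul_padicValNat_factorial (p := 5) (d / 4)
  have h2 : (5 - 1) * padicValNat 5 (d / 4).factorial ≤ d / 4 := by
    rw [h1]
    exact Nat.sub_le _ _
  omega

theorem card_GL_two (d : ℕ) : Nat.card (Matrix.GeneralLinearGroup (Fin d) (ZMod 2)) =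
    ∏ i : Fin d, (2 ^ d - 2 ^ (i : ℕ)) := by
  have h1 := Matrix.card_GL_field (𝔽 := ZMod 2) d
  rw [ZMod.card] at h1
  exact h1

theorem val_GL (d : ℕ) :
    16 * padicValNat 5 (Nat.card (Matrix.GeneralLinearGroup (Fin d) (ZMod 2))) ≤ 5 * d := by
  rw [card_GL_two]
  have hne : ∀ i : Fin d, 2 ^ d - 2 ^ (i : ℕ) ≠ 0 := by
    intro i
    have := Nat.pow_lt_pow_right (by norm_num : 1 < 2) i.2
    omega
  have h1 : padicValNat 5 (∏ i : Fin d, (2 ^ d - 2 ^ (i : ℕ))) =
      ∑ i : Fin d, padicValNat 5 (2 ^ d - 2 ^ (i : ℕ)) := by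
    induction (Finset.univ : Finset (Fin d)) using Finset.induction_on with
    | empty => simp
    | insert a s ha ih =>
      rw [Finset.prod_insert ha, Finset.sum_insert ha, padicValNat.mul (hne a)
        (Finset.prod_ne_zero_iff.2 fun i _ => hne i), ih]
  have h2 : ∀ i : Fin d, padicValNat 5 (2 ^ d - 2 ^ (i : ℕ)) =
      padicValNat 5 (2 ^ (d - 1 - (i : ℕ) + 1) - 1) := by
    intro i
    have h3 : 2 ^ d - 2 ^ (i : ℕ) = 2 ^ (i : ℕ) * (2 ^ (d - 1 - (i : ℕ) + 1) - 1) := by
      rw [Nat.mul_sub, mul_one, ← pow_add]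
      congr 2
      have := i.2
      omega
    have h4 : 2 ^ (d - 1 - (i : ℕ) + 1) - 1 ≠ 0 := by
      have : 2 ^ 1 ≤ 2 ^ (d - 1 - (i : ℕ) + 1) := Nat.pow_le_pow_right (by norm_num) (by omega)
      omega
    have h5 : padicValNat 5 (2 ^ (i : ℕ)) = 0 := by
      apply padicValNat.eq_zero_of_not_dvd
      intro h
      have := (by norm_num : Nat.Prime 5).dvd_of_dvd_pow h
      omega
    rw [h3, padicValNat.mul (by positivity) h4, h5, zero_add]
  rw [h1, Finset.sum_congr rfl fun i _ => h2 i]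
  have h3 : ∑ i : Fin d, padicValNat 5 (2 ^ (d - 1 - (i : ℕ) + 1) - 1) =
      ∑ j ∈ Finset.range d, padicValNat 5 (2 ^ (j + 1) - 1) := by
    rw [Fin.sum_univ_eq_sum_range (fun i => padicValNat 5 (2 ^ (d - 1 - i + 1) - 1)) d]
    exact Finset.sum_range_reflect (fun j => padicValNat 5 (2 ^ (j + 1) - 1)) d
  rw [h3]
  exact sum_val_le d

end val

end Pool.Agent.U442.Htj
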