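import Pool.Agent.U442.Htj.Pig
import Pool.Agent.U442.Htj.Div

/-!
Families of polynomials with large Galois groups: the splitting fields contained in the field
defined by the action on a lattice modulo two.
-/

set_option autoImplicit false

namespace Pool.Agent.U442.Htj

open Polynomial
open scoped Classical

/-- The indices `i` for which the splitting field of `f i` is contained in the field defined by the
action modulo two: all the elements which are trivial modulo two fix the roots of `f i`. -/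
def Exc {L F I : Type} [Field L] [Field F] [Algebra L F] (f : I → L[X]) {d : ℕ}
    (t : (F ≃ₐ[L] F) →* Matrix (Fin d) (Fin d) ℤ_[2]) : Set I :=
  {i | ∀ s : F ≃ₐ[L] F, TrivialModTwo t s → ∀ x ∈ (f i).rootSet F, s x = x}

/-- The exceptional set: the product of the orders of the alternating groups divides the order of
`GL_d (𝔽_2)`, and there are at most `5 d / 16` exceptional indices. -/
theorem exceptional {L F I : Type} [Field L] [Field F] [Algebra L F] (f : I → L[X])
    (h7 : ∀ i, 7 ≤ Nat.card ((f i).rootSet F))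
    (hG : ∀ i, ∀ π : Equiv.Perm ((f i).rootSet F), Equiv.Perm.sign π = 1 →
      ∃ s : F ≃ₐ[L] F, ∀ x : (f i).rootSet F, s (x : F) = (π x : F))
    (hd : ∀ i j, i ≠ j → ∃ s : F ≃ₐ[L] F, (∀ x ∈ (f j).rootSet F, s x = x) ∧
      ∃ x ∈ (f i).rootSet F, s x ≠ x) {d : ℕ}
    (t : (F ≃ₐ[L] F) →* Matrix (Fin d) (Fin d) ℤ_[2]) :
    (Exc f t).Finite ∧ 16 * (Exc f t).ncard ≤ 5 * d ∧
      ∀ S : Finset I, (S : Set I) ⊆ Exc f t →
        ∏ i ∈ S, (Nat.card ((f i).rootSet F)).factorial / 2 ∣
          Nat.card (Matrix.GeneralLinearGroup (Fin d) (ZMod 2)) := by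
  let φ : ∀ i, (F ≃ₐ[L] F) →* Equiv.Perm ((f i).rootSet F) := fun i =>
    MulAction.toPermHom (F ≃ₐ[L] F) ((f i).rootSet F)
  have hφa : ∀ i s (x : (f i).rootSet F), ((φ i s x : (f i).rootSet F) : F) = s x :=
    fun i s x => rfl
  have hφ1 : ∀ i s, φ i s = 1 ↔ ∀ x ∈ (f i).rootSet F, s x = x := by
    intro i s
    constructor
    · intro h x hx
      have h1 := hφa i s ⟨x, hx⟩
      rw [h] at h1
      exact h1.symm
    · intro h
      ext x
      rw [hφa, h x x.2]
      rfl
  have hφ : ∀ i, alternatingGroup ((f i).rootSet F) ≤ (φ i).range := by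
    intro i π hπ
    obtain ⟨s, hs⟩ := hG i π (Equiv.Perm.mem_alternatingGroup.1 hπ)
    refine ⟨s, ?_⟩
    ext x
    rw [hφa, hs]
  have hind : ∀ i j, i ≠ j → ∃ s, φ j s = 1 ∧ φ i s ≠ 1 := by
    intro i j hij
    obtain ⟨s, hs, x, hx, hsx⟩ := hd i j hij
    refine ⟨s, (hφ1 j s).2 hs, fun h => hsx ?_⟩
    exact (hφ1 i s).1 h x hx
  let ψ₀ : (F ≃ₐ[L] F) →* Matrix (Fin d) (Fin d) (ZMod 2) :=
    ((PadicInt.toZMod (p := 2)).mapMatrix.toMonoidHom).comp t
  have hψ₀ : ∀ s, ψ₀ s = 1 → TrivialModTwo t s := fun s h => h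
  let ψ : (F ≃ₐ[L] F) →* Matrix.GeneralLinearGroup (Fin d) (ZMod 2) := ψ₀.toHomUnits
  have hψ : ∀ s, ψ s = 1 → TrivialModTwo t s := by
    intro s hs
    apply hψ₀
    have h1 := congrArg Units.val hs
    exact h1
  have hA : ∀ i, Nat.card (alternatingGroup ((f i).rootSet F)) =
      (Nat.card ((f i).rootSet F)).factorial / 2 := by
    intro i
    have : Nontrivial ((f i).rootSet F) := by
      rw [← Finite.one_lt_card_iff_nontrivial]
      have := h7 i
      omega
    have h2 : 2 * Fintype.card (alternatingGroup ((f i).rootSet F)) =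
        (Fintype.card ((f i).rootSet F)).factorial := by
      rw [two_mul_card_alternatingGroup, Fintype.card_perm]
    rw [Nat.card_eq_fintype_card, Nat.card_eq_fintype_card, ← h2]
    omega
  have key : ∀ S : Finset I, (S : Set I) ⊆ Exc f t →
      ∏ i ∈ S, (Nat.card ((f i).rootSet F)).factorial / 2 ∣
          Nat.card (Matrix.GeneralLinearGroup (Fin d) (ZMod 2)) := by
    intro S hS
    have h1 := prod_card_dvd φ (fun i => (by norm_num : 5 ≤ 7).trans (h7 i)) hφ hind ψ S
      (fun i hi s hs => (hφ1 i s).2 (hS hi s (hψ s hs)))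
    rwa [Finset.prod_congr rfl fun i _ => hA i] at h1
  have hfive : ∀ i, 5 ∣ (Nat.card ((f i).rootSet F)).factorial / 2 := by
    intro i
    have h1 : Nat.factorial 7 ∣ (Nat.card ((f i).rootSet F)).factorial :=
      Nat.factorial_dvd_factorial (h7 i)
    obtain ⟨c, hc⟩ := h1
    rw [hc]
    have h4 : Nat.factorial 7 = 5040 := rfl
    rw [h4]
    exact ⟨504 * c, by omega⟩
  have key2 : ∀ S : Finset I, (S : Set I) ⊆ Exc f t → 16 * S.card ≤ 5 * d := by
    intro S hS
    have h1 : 5 ^ S.card ∣ ∏ i ∈ S, (Nat.card ((f i).rootSet F)).factorial / 2 := by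
      rw [← Finset.prod_const]
      exact Finset.prod_dvd_prod_of_dvd _ _ fun i _ => hfive i
    have h2 := h1.trans (key S hS)
    have hne : Nat.card (Matrix.GeneralLinearGroup (Fin d) (ZMod 2)) ≠ 0 := Nat.card_pos.ne'
    have h3 := (padicValNat_dvd_iff_le hne).1 h2
    have h4 := val_GL d
    omega
  have hfin : (Exc f t).Finite := by
    by_contra hinf
    obtain ⟨S, hS, hcard⟩ := Set.Infinite.exists_subset_card_eq hinf (5 * d + 1)
    have h1 := key2 S hS
    rw [hcard] at h1
    omega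
  refine ⟨hfin, ?_, key⟩
  have h1 := key2 hfin.toFinset (by rw [Set.Finite.coe_toFinset])
  rwa [← Set.ncard_eq_toFinset_card _ hfin] at h1

end Pool.Agent.U442.Htj
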