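import Pool.Agent.N166.CZ.Def
import Pool.Agent.N171.St
import Pool.Agent.N171.PmDefs

/-!
Definitions for the Tate classes at all prime numbers over number fields (the same as in the
starting result `MP_640417_ag.HyperellipticEveryPrime`).
-/

set_option autoImplicit false

namespace Pool.Agent.U442.Htj.EP

open Matrix Polynomial Filter Topology NumberField IsDedekindDomain
open Pool.Agent.N171 (HypP JacP Vt vRep)
open Pool.Agent.N166.CZ (IsTateModule ProductsWith)

/-- the absolute Galois group, with the profinite (Krull) topology -/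
abbrev AbsoluteGaloisGroup (L : Type) [Field L] : Type := Gal(AlgebraicClosure L/L)

/-- `σ` is an (arithmetic) Frobenius element at the prime `v` of `L`: there is a maximal ideal `Q` above
`v` of the ring of all algebraic integers with `σ x ≡ x ^ N(v)` modulo `Q` for all `x` -/
def IsFrobenius {L : Type} [Field L] [NumberField L] (v : HeightOneSpectrum (𝓞 L))
    (σ : AbsoluteGaloisGroup L) : Prop :=
  ∃ Q : Ideal (𝓞 (AlgebraicClosure L)), Q.IsMaximal ∧
    Q.comap (algebraMap (𝓞 L) (𝓞 (AlgebraicClosure L))) = v.asIdeal ∧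
    ∀ x : 𝓞 (AlgebraicClosure L), σ • x - x ^ Ideal.absNorm v.asIdeal ∈ Q

/-- The roots of the rational polynomial `P` are Weil numbers of weight `w` for the place `v`, and become
integral after multiplication by `q ^ m`, with `q` the number of elements of the residue field. -/
def IsWeilPoly {L : Type} [Field L] [NumberField L] (v : HeightOneSpectrum (𝓞 L)) (w : ℤ) (m : ℕ)
    (P : ℚ[X]) : Prop :=
  ∀ z : ℂ, aeval z P = 0 → ‖z‖ ^ 2 = (Ideal.absNorm v.asIdeal : ℝ) ^ w ∧
    IsIntegral ℤ ((Ideal.absNorm v.asIdeal : ℂ) ^ m * z)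

/-- the representation on the column vectors -/
noncomputable def matRep {k G : Type} [Field k] [Group G] {n : ℕ}
    (r : G →* Matrix (Fin n) (Fin n) k) : Representation k G (Fin n → k) :=
  ((Matrix.toLinAlgEquiv' (R := k) (n := Fin n)).toAlgHom.toRingHom.toMonoidHom).comp r

/-- the realization `s` over `ℚ_ℓ` has the Frobenius polynomials `Q v` (of the geometric Frobenius
elements `σ⁻¹`) -/
def HasFrobenius {L : Type} [Field L] [NumberField L] (S : Set (HeightOneSpectrum (𝓞 L)))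
    (Q : HeightOneSpectrum (𝓞 L) → ℚ[X]) (ℓ : ℕ) [Fact ℓ.Prime] {M : Type} [AddCommGroup M]
    [Module ℚ_[ℓ] M] [FiniteDimensional ℚ_[ℓ] M]
    (s : Representation ℚ_[ℓ] (AbsoluteGaloisGroup L) M) : Prop :=
  ∀ v ∉ S, (ℓ : 𝓞 L) ∉ v.asIdeal → ∀ σ : AbsoluteGaloisGroup L, IsFrobenius v σ →
    LinearMap.charpoly (s σ⁻¹) = (Q v).map (Rat.castHom ℚ_[ℓ])

/-- the matrices `R g` describe the representation on the product of the spaces `V i` in some basis -/
def IsMatrixOf {G : Type} [Group G] {ι : Type} {V : ι → Type} [∀ i, AddCommGroup (V i)]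
    [∀ i, Module ℚ_[2] (V i)] (ρ : ∀ i, Representation ℚ_[2] G (V i)) {n : ℕ}
    (R : G →* Matrix (Fin n) (Fin n) ℚ_[2]) : Prop :=
  ∃ E : (Fin n → ℚ_[2]) ≃ₗ[ℚ_[2]] (∀ i, V i), ∀ g x i, E (R g *ᵥ x) i = ρ i g (E x i)

/-- The 2-adic representation on `V_2 (J 1) ⊕ ... ⊕ V_2 (J r)` has the Frobenius polynomials `P v`, `v` not in
`S`: in a basis of this space the matrix of the (arithmetic) Frobenius elements at `v` has
the characteristic polynomial `P v`. -/
def JacobianFrobenius {L : Type} [Field L] [NumberField L] {ι : Type} (f : ι → L[X])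
    [∀ i, HypP (f i)] (S : Set (HeightOneSpectrum (𝓞 L)))
    (P : HeightOneSpectrum (𝓞 L) → ℚ[X]) : Prop :=
  ∃ (n : ℕ) (R : AbsoluteGaloisGroup L →* Matrix (Fin n) (Fin n) ℚ_[2]),
    IsMatrixOf (fun i => vRep (JacP (f i) (AlgebraicClosure L)) (AbsoluteGaloisGroup L)) R ∧
    ∀ v ∉ S, (2 : 𝓞 L) ∉ v.asIdeal → ∀ σ : AbsoluteGaloisGroup L, IsFrobenius v σ →
      (R σ).charpoly = (P v).map (Rat.castHom ℚ_[2])

/-- `V` has the properties of the rational Tate module over `ℚ_ℓ` of an abelian variety with the Frobenius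
polynomials `P v`: a nondegenerate alternating form which is multiplied by `χ`, semisimplicity over
all finite extensions, and `χ` is the cyclotomic character -/
def IsTateModuleWith {L : Type} [Field L] [NumberField L] (S : Set (HeightOneSpectrum (𝓞 L)))
    (P : HeightOneSpectrum (𝓞 L) → ℚ[X]) (ℓ : ℕ) [Fact ℓ.Prime] {V : Type} [AddCommGroup V]
    [Module ℚ_[ℓ] V] [FiniteDimensional ℚ_[ℓ] V]
    (r : Representation ℚ_[ℓ] (AbsoluteGaloisGroup L) V) (χ : AbsoluteGaloisGroup L →* ℚ_[ℓ]) :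
    Prop :=
  IsTateModule r χ ∧ ∀ v ∉ S, (ℓ : 𝓞 L) ∉ v.asIdeal → ∀ σ : AbsoluteGaloisGroup L,
    IsFrobenius v σ → χ σ = (Ideal.absNorm v.asIdeal : ℚ_[ℓ]) ∧
      LinearMap.charpoly (r σ) = (P v).map (Rat.castHom ℚ_[ℓ])

/-- The Tate classes at the prime number `ℓ` on the powers of the abelian variety with the Frobenius
polynomials `P v`, with values in the motive with the Frobenius polynomials `Q v`. -/
def AtPrime {L : Type} [Field L] [NumberField L] (S : Set (HeightOneSpectrum (𝓞 L)))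
    (P Q : HeightOneSpectrum (𝓞 L) → ℚ[X]) (ℓ : ℕ) [Fact ℓ.Prime] : Prop :=
  ∀ (V M : Type) [AddCommGroup V] [Module ℚ_[ℓ] V] [FiniteDimensional ℚ_[ℓ] V] [AddCommGroup M]
    [Module ℚ_[ℓ] M] [FiniteDimensional ℚ_[ℓ] M]
    (r : Representation ℚ_[ℓ] (AbsoluteGaloisGroup L) V) (χ : AbsoluteGaloisGroup L →* ℚ_[ℓ])
    (s : Representation ℚ_[ℓ] (AbsoluteGaloisGroup L) M),
    IsTateModuleWith S P ℓ r χ → HasFrobenius S Q ℓ s → ProductsWith r χ s

/-- **Tate classes at every prime number** on all products of powers of the Jacobians of the curves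
`y ^ 2 = f i (x)` with any pure motive whose 2-adic realization is given by the matrices `ν g`. -/
def EveryPrime {L : Type} [Field L] [NumberField L] {ι : Type} (f : ι → L[X]) {d : ℕ}
    (ν : AbsoluteGaloisGroup L →* Matrix (Fin d) (Fin d) ℚ_[2]) : Prop :=
  ∃ _ : ∀ i, HypP (f i), ∀ (S : Set (HeightOneSpectrum (𝓞 L))) (m : ℕ) (w : ℤ)
    (P Q : HeightOneSpectrum (𝓞 L) → ℚ[X]),
    S.Finite → (∀ v ∉ S, IsWeilPoly v 1 m (P v) ∧ IsWeilPoly v w m (Q v)) →
    JacobianFrobenius f S P → HasFrobenius S Q 2 (matRep ν) →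
    ∀ (ℓ : ℕ) [Fact ℓ.Prime], AtPrime S P Q ℓ

end Pool.Agent.U442.Htj.EP
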