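import Mathlib

/-!
The representations generated by a given representation and characters.
-/

set_option autoImplicit false

namespace Pool.Agent.U442.Htj

open scoped TensorProduct

/-- The representations over `ℚ_2` obtained from the representation `τ` on `W` and the characters
with values in the units of the 2-adic integers (for instance the powers of the cyclotomic character)
by tensor products, direct sums, duals, subrepresentations and quotients (up to isomorphism). -/
inductive Generated {G W : Type} [Group G] [AddCommGroup W] [Module ℚ_[2] W]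
    (τ : Representation ℚ_[2] G W) :
    ∀ (M : Type) [AddCommGroup M] [Module ℚ_[2] M], Representation ℚ_[2] G M → Prop
  /-- the representation itself -/
  | self : Generated τ W τ
  /-- the characters with values in the units of the 2-adic integers -/
  | char (χ : G →* ℚ_[2]) (hχ : ∀ s, ‖χ s‖ = 1) (ν : Representation ℚ_[2] G ℚ_[2])
      (hν : ∀ s x, ν s x = χ s * x) : Generated τ ℚ_[2] ν
  /-- tensor products -/
  | tensor {M M' : Type} [AddCommGroup M] [Module ℚ_[2] M] [AddCommGroup M'] [Module ℚ_[2] M']
      {ν : Representation ℚ_[2] G M} {ν' : Representation ℚ_[2] G M'} :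
      Generated τ M ν → Generated τ M' ν' → Generated τ (M ⊗[ℚ_[2]] M') (ν.tprod ν')
  /-- direct sums -/
  | sum {M M' : Type} [AddCommGroup M] [Module ℚ_[2] M] [AddCommGroup M'] [Module ℚ_[2] M']
      {ν : Representation ℚ_[2] G M} {ν' : Representation ℚ_[2] G M'} :
      Generated τ M ν → Generated τ M' ν' → Generated τ (M × M') (ν.prod ν')
  /-- duals -/
  | dual {M : Type} [AddCommGroup M] [Module ℚ_[2] M] {ν : Representation ℚ_[2] G M} :
      Generated τ M ν → Generated τ (Module.Dual ℚ_[2] M) ν.dual
  /-- subrepresentations -/
  | sub {M M' : Type} [AddCommGroup M] [Module ℚ_[2] M] [AddCommGroup M'] [Module ℚ_[2] M']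
      {ν : Representation ℚ_[2] G M} {ν' : Representation ℚ_[2] G M'} (j : M' →ₗ[ℚ_[2]] M)
      (hj : Function.Injective j) (hc : ∀ s x, j (ν' s x) = ν s (j x)) :
      Generated τ M ν → Generated τ M' ν'
  /-- quotients -/
  | quotient {M M' : Type} [AddCommGroup M] [Module ℚ_[2] M] [AddCommGroup M'] [Module ℚ_[2] M']
      {ν : Representation ℚ_[2] G M} {ν' : Representation ℚ_[2] G M'} (q : M →ₗ[ℚ_[2]] M')
      (hq : Function.Surjective q) (hc : ∀ s x, q (ν s x) = ν' s (q x)) :
      Generated τ M ν → Generated τ M' ν'

end Pool.Agent.U442.Htj
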