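import Pool.Agent.U442.Htj.Sub
import Pool.Agent.U442.Htj.Cat

set_option autoImplicit false

namespace Pool.Agent.U442.Htj

theorem governed_of_generated {G W : Type} [Group G] [AddCommGroup W] [Module ℚ_[2] W] {d : ℕ}
    {t : G →* Matrix (Fin d) (Fin d) ℤ_[2]} {τ : Representation ℚ_[2] G W}
    (h : HasMatrices τ t) {M : Type} [AddCommGroup M] [Module ℚ_[2] M]
    {ν : Representation ℚ_[2] G M} (hν : Generated τ M ν) : GovernedBy t ν := by
  induction hν with
  | self => exact governedBy_self h
  | char χ hχ ν hν => exact governedBy_char χ (fun s => (hχ s).le) ν hν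
  | tensor _ _ h1 h2 => exact governedBy_tprod h1 h2
  | sum _ _ h1 h2 => exact governedBy_prod h1 h2
  | dual _ h1 => exact governedBy_dual h1
  | sub j hj hc _ h1 => exact governedBy_sub h1 j hj hc
  | quotient q hq hc _ h1 => exact governedBy_quot h1 q hq hc

end Pool.Agent.U442.Htj
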