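import Pool.Agent.N197.Htj.Lim
import Pool.Agent.U442.Htj.Gen

/-!
Good tuples of polynomials: one integral representation governs all generated representations.
-/

set_option autoImplicit false

namespace Pool.Agent.U442.Htj

open Polynomial Filter Topology Pool.Agent.N171 Pool.Agent.N197.Htj
open scoped Classical

theorem trivMod_zero {G W : Type} [Group G] [AddCommGroup W] [Module ℚ_[2] W] {d : ℕ}
    (b : Module.Basis (Fin d) ℚ_[2] W) {τ : Representation ℚ_[2] G W}
    {t : G →* Matrix (Fin d) (Fin d) ℤ_[2]}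
    (hb : ∀ s, LinearMap.toMatrix b b (τ s) = (t s).map (algebraMap ℤ_[2] ℚ_[2])) (s : G) :
    TrivMod b (τ s) 0 := by
  intro i j
  have h1 := congrFun (congrFun (hb s) j) i
  rw [LinearMap.toMatrix_apply, Matrix.map_apply] at h1
  refine ⟨t s j i - (if i = j then 1 else 0), ?_⟩
  rw [h1, pow_zero, one_mul, PadicInt.coe_sub]
  split_ifs
  · rw [PadicInt.coe_one, add_sub_cancel]
    rfl
  · rw [PadicInt.coe_zero, zero_add, sub_zero]
    rfl

theorem trivMod_one_iff {G W : Type} [Group G] [AddCommGroup W] [Module ℚ_[2] W] {d : ℕ}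
    (b : Module.Basis (Fin d) ℚ_[2] W) {τ : Representation ℚ_[2] G W}
    {t : G →* Matrix (Fin d) (Fin d) ℤ_[2]}
    (hb : ∀ s, LinearMap.toMatrix b b (τ s) = (t s).map (algebraMap ℤ_[2] ℚ_[2])) (s : G) :
    TrivMod b (τ s) 1 ↔ TrivialModTwo t s := by
  have h1 : ∀ i j, b.repr (τ s (b i)) j = algebraMap ℤ_[2] ℚ_[2] (t s j i) := by
    intro i j
    have h2 := congrFun (congrFun (hb s) j) i
    rw [LinearMap.toMatrix_apply, Matrix.map_apply] at h2
    exact h2
  constructor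
  · intro h
    unfold TrivialModTwo
    ext j i
    obtain ⟨z, hz⟩ := h i j
    rw [h1, pow_one] at hz
    have h3 : t s j i = (if i = j then 1 else 0) + 2 * z := by
      apply Subtype.val_injective
      show algebraMap ℤ_[2] ℚ_[2] (t s j i) = (((if i = j then 1 else 0) + 2 * z : ℤ_[2]) : ℚ_[2])
      rw [hz, PadicInt.coe_add, PadicInt.coe_mul]
      have e2 : ((2 : ℤ_[2]) : ℚ_[2]) = 2 := by norm_cast
      rw [e2]
      split_ifs
      · rw [PadicInt.coe_one]
      · rw [PadicInt.coe_zero]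
    have e2 : PadicInt.toZMod (p := 2) (2 : ℤ_[2]) = 0 := by
      rw [map_ofNat]
      rfl
    rw [Matrix.map_apply, h3, map_add, map_mul, e2, zero_mul, add_zero, Matrix.one_apply]
    by_cases hij : i = j
    · rw [if_pos hij, if_pos hij.symm, map_one]
    · rw [if_neg hij, if_neg (Ne.symm hij), map_zero]
  · intro h i j
    unfold TrivialModTwo at h
    have e1 := congrFun (congrFun h j) i
    rw [Matrix.map_apply, Matrix.one_apply] at e1
    have e2 : PadicInt.toZMod (p := 2) (t s j i - (if i = j then 1 else 0)) = 0 := by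
      rw [map_sub, e1]
      by_cases hij : i = j
      · rw [if_pos hij, if_pos hij.symm, map_one, sub_self]
      · rw [if_neg hij, if_neg (Ne.symm hij), map_zero, sub_self]
    have e3 : t s j i - (if i = j then 1 else 0) ∈ Ideal.span {((2 : ℕ) : ℤ_[2])} := by
      rw [← PadicInt.maximalIdeal_eq_span_p, ← PadicInt.ker_toZMod]
      exact e2
    obtain ⟨z, hz⟩ := Ideal.mem_span_singleton.1 e3
    refine ⟨z, ?_⟩
    have h3 : t s j i = (if i = j then 1 else 0) + 2 * z := by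
      rw [Nat.cast_ofNat] at hz
      rw [← hz]
      ring
    rw [h1, h3, pow_one]
    change (((if i = j then 1 else 0) + 2 * z : ℤ_[2]) : ℚ_[2]) = _
    rw [PadicInt.coe_add, PadicInt.coe_mul]
    have e4 : ((2 : ℤ_[2]) : ℚ_[2]) = 2 := by norm_cast
    rw [e4]
    split_ifs
    · rw [PadicInt.coe_one]
    · rw [PadicInt.coe_zero]

/-- The Tate classes on the powers of the product of the Jacobians with values in all representations
generated by `τ`. -/
def AllSplit {k : Type} [Field k] (L F : Type) [Field L] [Field F] [Algebra k L] [Algebra L F]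
    {ι : Type} (f : ι → k[X]) {W : Type} [AddCommGroup W] [Module ℚ_[2] W]
    (τ : Representation ℚ_[2] (F ≃ₐ[L] F) W) : Prop :=
  ∃ (_ : ∀ i, HypP ((f i).map (algebraMap k L)))
    (ω : ∀ i, Vt (JacP ((f i).map (algebraMap k L)) F) →ₗ[ℚ_[2]]
      Vt (JacP ((f i).map (algebraMap k L)) F) →ₗ[ℚ_[2]] ℚ_[2]),
    (∀ i, IsWeil (vRep (JacP ((f i).map (algebraMap k L)) F) (F ≃ₐ[L] F)) (cycQ L F) (ω i)) ∧
    ∀ (M : Type) [AddCommGroup M] [Module ℚ_[2] M] (ν : Representation ℚ_[2] (F ≃ₐ[L] F) M),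
      Generated τ M ν →
      Splits (vRep (JPi (fun i => (f i).map (algebraMap k L)) F) (F ≃ₐ[L] F))
        (cycQ L F) (fun i => pullP (fun i => (f i).map (algebraMap k L)) F i (ω i)) ν

/-- The conditions on the integral representation. -/
def TameT {k L F : Type} [Field k] [Field L] [Field F] [Algebra L F] [Algebra k F]
    (U : Finset kˣ) {d : ℕ} (t : (F ≃ₐ[L] F) →* Matrix (Fin d) (Fin d) ℤ_[2]) : Prop :=
  (∃ m : ℕ, ∀ s ∈ derivedSeries (F ≃ₐ[L] F) m, TrivialModTwo t s) ∨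
    ∀ c : kˣ, (∀ δ : F, δ ^ 2 = algebraMap k F c → ∀ s, TrivialModTwo t s → s δ = δ) →
      ∃ u ∈ U, IsSquare (c * u)

theorem tame_of_governed {k L F : Type} [Field k] [Field L] [Field F] [Algebra L F]
    [Algebra k F] {ι : Type} (n : ι → ℕ) {U : Finset kˣ} {d : ℕ}
    {t : (F ≃ₐ[L] F) →* Matrix (Fin d) (Fin d) ℤ_[2]} (ht : TameT (k := k) U t) {M : Type}
    [AddCommGroup M] [Module ℚ_[2] M] {ν : Representation ℚ_[2] (F ≃ₐ[L] F) M}
    (hν : GovernedBy t ν) : Tame n U ν := by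
  obtain ⟨d', t', ⟨b, hb⟩, h⟩ := hν
  refine ⟨d', b, fun s => trivMod_zero b hb s, ?_⟩
  rcases ht with ⟨m, hm⟩ | h1
  · exact Or.inr (Or.inl ⟨m, fun s hs => (trivMod_one_iff b hb s).2 (h s (hm s hs))⟩)
  · exact Or.inr (Or.inr fun c hc => h1 c fun δ hδ s hs =>
      hc δ hδ s ((trivMod_one_iff b hb s).2 (h s hs)))

theorem allSplit_of_good {k : Type} [Field k] {ι : Type} {n : ι → ℕ} {U : Finset kˣ}
    {f : ι → k[X]} (hf : Good.{0} n U f) {L F : Type} [Field L] [Field F] [Algebra k L]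
    [Algebra L F] [Algebra k F] [IsScalarTower k L F] [IsAlgClosure L F] (hA : Allowed L F U f)
    {d : ℕ} {t : (F ≃ₐ[L] F) →* Matrix (Fin d) (Fin d) ℤ_[2]} (ht : TameT (k := k) U t)
    {W : Type} [AddCommGroup W] [Module ℚ_[2] W] {τ : Representation ℚ_[2] (F ≃ₐ[L] F) W}
    (hτ : HasMatrices τ t) : AllSplit L F f τ := by
  obtain ⟨hyp, ω, hω, h⟩ := hf L F hA
  exact ⟨hyp, ω, hω, fun M _ _ ν hν =>
    h M ν (tame_of_governed n ht (governed_of_generated hτ hν))⟩

/-- Each integral representation is covered by a finite set. -/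
theorem exists_UT {k L F : Type} [Field k] [Field L] [Field F] [Algebra k L] [Algebra L F]
    [Algebra k F] [IsScalarTower k L F] [IsAlgClosure L F]
    [FiniteDimensional k (separableClosure k L)] (h2 : (2 : k) ≠ 0) {ι : Type} {d : ℕ}
    (t : (F ≃ₐ[L] F) →* Matrix (Fin d) (Fin d) ℤ_[2]) :
    ∃ U : Finset kˣ, (∀ f : ι → k[X], Allowed L F U f) ∧ TameT (k := k) U t := by
  obtain ⟨U, M, hM1, hM2, hM3⟩ := exists_M (k := k) (L := L) (F := F)
  have h2F : (2 : F) ≠ 0 := by
    rw [← map_ofNat (algebraMap k F) 2]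
    exact (map_ne_zero_iff _ (algebraMap k F).injective).2 h2
  -- the representation of the matrices
  let τ : Representation ℚ_[2] (F ≃ₐ[L] F) (Fin d → ℚ_[2]) :=
    ((Matrix.toLinAlgEquiv' (R := ℚ_[2]) (n := Fin d)).toAlgHom.toRingHom.toMonoidHom).comp
      (((algebraMap ℤ_[2] ℚ_[2]).mapMatrix : Matrix (Fin d) (Fin d) ℤ_[2] →+* _).toMonoidHom.comp t)
  have hb : ∀ s, LinearMap.toMatrix (Pi.basisFun ℚ_[2] (Fin d)) (Pi.basisFun ℚ_[2] (Fin d)) (τ s) =
      (t s).map (algebraMap ℤ_[2] ℚ_[2]) := by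
    intro s
    have h3 : τ s = Matrix.toLin' ((t s).map (algebraMap ℤ_[2] ℚ_[2])) := rfl
    rw [h3, LinearMap.toMatrix_eq_toMatrix', LinearMap.toMatrix'_toLin']
  obtain ⟨V, hV⟩ := classes_W (k := k) (L := L) (F := F) h2F (U := U) (fun c hc => by
    obtain ⟨r, hr⟩ := hc
    refine hM3 c ⟨algebraMap L F r, hM2 r ?_, ?_⟩
    · have hsep : (X ^ 2 - C (c : k) : k[X]).Separable :=
        separable_X_pow_sub_C _ (by exact_mod_cast h2) c.ne_zero
      exact sep_root hsep (by rw [map_sub, map_pow, aeval_X, aeval_C, hr, sub_self])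
    · rw [← map_pow, hr, ← IsScalarTower.algebraMap_apply]) τ (Pi.basisFun ℚ_[2] (Fin d))
    (fun s => trivMod_zero _ hb s)
  refine ⟨U ∪ V, fun f => Or.inr ⟨M, hM1, hM2, Or.inr fun c hc => ?_⟩, Or.inr fun c hc => ?_⟩
  · obtain ⟨u, hu, h⟩ := hM3 c hc
    exact ⟨u, Finset.mem_union_left _ hu, h⟩
  · obtain ⟨u, hu, h⟩ := hV c fun δ hδ s hs => hc δ hδ s ((trivMod_one_iff _ hb s).1 hs)
    exact ⟨u, Finset.mem_union_right _ hu, h⟩

end Pool.Agent.U442.Htj
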