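import Pool.Agent.N197.AP.Fin5
import Pool.Agent.N197.AP.L_CONT1
import Pool.Agent.N197.AP.L_CONT2
import Pool.Agent.U442.Htj.Main
import Pool.Agent.U442.Htj.Fam
import Pool.Agent.U442.Htj.EPDefs

/-!
From one integral representation to all representations in its tensor category, at all primes.
-/

set_option autoImplicit false

namespace Pool.Agent.U442.Htj.EP

open Matrix Polynomial Filter Topology NumberField IsDedekindDomain
open Pool.Agent.N171 Pool.Agent.N197.AP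
open scoped Classical

theorem everyPrime_of_gd {L : Type} [Field L] [NumberField L] {ι : Type} [Fintype ι] [Nonempty ι]
    (f : ι → L[X]) (hf : ∀ i, HypP (f i)) {d : ℕ}
    (τ : AbsoluteGaloisGroup L →* Matrix (Fin d) (Fin d) ℚ_[2]) (hτ : Continuous τ)
    (hGD : GD f (Pool.Agent.N197.AP.matRep τ)) : EveryPrime f τ := by
  refine ⟨hf, fun S m w P Q hS hPQ hJ hτQ ℓ _ V M _ _ _ _ _ _ r χ s hr h2 => ?_⟩
  have h1 := hr.2
  obtain ⟨n, R, ⟨E, hE⟩, hRP⟩ := hJ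
  have hR : Continuous R := Pool.Agent.N197.AP.t_CONT2 L (AlgebraicClosure L) ι f
    (fun i x => Pool.Agent.N197.AP.t_CONT1 L (AlgebraicClosure L) (f i) x) n R E hE
  refine Pool.Agent.N197.AP.holds_of_gd f τ hτ hGD S hS P Q (fun v hv z hz => ?_)
    (fun v hv z hz => (hPQ v hv).2 z hz) R hR E hE hRP (fun v hv hv2 σ hσ => ?_) ℓ V M r χ s hr.1
    (fun v hv hvℓ σ hσ => ⟨(h1 v hv hvℓ σ hσ).1, (h1 v hv hvℓ σ hσ).2, h2 v hv hvℓ σ hσ⟩)
  · have h3 := (hPQ v hv).1 z hz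
    rwa [zpow_one] at h3
  · have h3 := hτQ v hv (by rwa [Nat.cast_ofNat]) σ hσ
    rw [← h3]
    exact (Matrix.charpoly_toLin' (τ σ⁻¹)).symm

/-- The Galois data for all representations governed by `t`. -/
theorem gd_of_governed {L F : Type} [Field L] [Field F] [Algebra L F] {ι : Type} (f : ι → L[X])
    (h7 : ∀ i, 7 ≤ (f i).natDegree)
    (hG : ∀ i, ∀ π : Equiv.Perm ((f i).rootSet F), Equiv.Perm.sign π = 1 →
      ∃ s : F ≃ₐ[L] F, ∀ x : (f i).rootSet F, s (x : F) = (π x : F))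
    (hd : ∀ i j, j ≠ i → ∃ s : F ≃ₐ[L] F, (∀ x ∈ (f j).rootSet F, s x = x) ∧
      ∃ x ∈ (f i).rootSet F, s x ≠ x) {d : ℕ}
    {t : (F ≃ₐ[L] F) →* Matrix (Fin d) (Fin d) ℤ_[2]}
    (ht : ∀ i, ∃ s : F ≃ₐ[L] F, TrivialModTwo t s ∧ ∃ x ∈ (f i).rootSet F, s x ≠ x) {M : Type}
    [AddCommGroup M] [Module ℚ_[2] M] {ν : Representation ℚ_[2] (F ≃ₐ[L] F) M}
    (hν : GovernedBy t ν) : GD f ν := by
  obtain ⟨d', t', ⟨b, hb⟩, h⟩ := hν
  refine ⟨h7, hG, hd, d', b, fun s => trivMod_zero b hb s, fun i => Or.inr ?_⟩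
  obtain ⟨s, hs, hx⟩ := ht i
  exact ⟨s, (trivMod_one_iff b hb s).2 (h s hs), hx⟩

/-- the matrices over `ℚ_2` -/
noncomputable def toQ {G : Type} [Group G] {d : ℕ} (t : G →* Matrix (Fin d) (Fin d) ℤ_[2]) :
    G →* Matrix (Fin d) (Fin d) ℚ_[2] :=
  ((algebraMap ℤ_[2] ℚ_[2]).mapMatrix : Matrix (Fin d) (Fin d) ℤ_[2] →+* _).toMonoidHom.comp t

theorem hasMatrices_toQ {G : Type} [Group G] {d : ℕ} (t : G →* Matrix (Fin d) (Fin d) ℤ_[2]) :
    HasMatrices (matRep (toQ t)) t := by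
  refine ⟨Pi.basisFun ℚ_[2] (Fin d), fun s => ?_⟩
  have h3 : matRep (toQ t) s = Matrix.toLin' ((t s).map (algebraMap ℤ_[2] ℚ_[2])) := rfl
  rw [h3, LinearMap.toMatrix_eq_toMatrix', LinearMap.toMatrix'_toLin']

end Pool.Agent.U442.Htj.EP
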