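import Mathlib

/-!
Homomorphisms to symmetric groups whose images contain the alternating groups, and which are
pairwise independent: joint surjectivity, and a bound for the number of those which factor through
a small group.
-/

set_option autoImplicit false

namespace Pool.Agent.U442.Htj

open Equiv

section one

variable {Γ : Type*} [Group Γ] {Ω : Type*} [Fintype Ω] [DecidableEq Ω]

theorem centralizes_eq_one (h4 : 4 ≤ Nat.card Ω) (c : Perm Ω)
    (hc : ∀ a ∈ alternatingGroup Ω, c * a = a * c) : c = 1 := by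
  by_contra hne
  obtain ⟨x, hx⟩ : ∃ x, c x ≠ x := by
    by_contra hcon
    push Not at hcon
    exact hne (Equiv.ext hcon)
  set y := c x with hy
  obtain ⟨z, hz⟩ : ∃ z, z ∉ ({x, y} : Finset Ω) := by
    by_contra hcon
    push Not at hcon
    have h1 : Fintype.card Ω ≤ ({x, y} : Finset Ω).card :=
      Finset.card_le_card (fun w _ => hcon w)
    have h2 := Finset.card_le_two (a := x) (b := y)
    rw [Nat.card_eq_fintype_card] at h4
    omega
  obtain ⟨w, hw⟩ : ∃ w, w ∉ ({x, y, z} : Finset Ω) := by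
    by_contra hcon
    push Not at hcon
    have h1 : Fintype.card Ω ≤ ({x, y, z} : Finset Ω).card :=
      Finset.card_le_card (fun w _ => hcon w)
    have h2 := Finset.card_le_three (a := x) (b := y) (c := z)
    rw [Nat.card_eq_fintype_card] at h4
    omega
  simp only [Finset.mem_insert, Finset.mem_singleton, not_or] at hz hw
  have hyz : y ≠ z := fun h => hz.2 h.symm
  have hyw : y ≠ w := fun h => hw.2.1 h.symm
  have hmem : swap y z * swap y w ∈ alternatingGroup Ω := by
    rw [Perm.mem_alternatingGroup, Perm.sign_mul, Perm.sign_swap hyz, Perm.sign_swap hyw]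
    norm_num
  have h1 := Equiv.congr_fun (hc _ hmem) x
  rw [Perm.mul_apply, Perm.mul_apply, Perm.mul_apply, Perm.mul_apply] at h1
  have hxy : x ≠ y := fun h => hx h.symm
  rw [swap_apply_of_ne_of_ne hxy (fun h => hw.1 h.symm),
    swap_apply_of_ne_of_ne hxy (fun h => hz.1 h.symm), ← hy, swap_apply_left,
    swap_apply_of_ne_of_ne (fun h => hyw h.symm) (fun h => hw.2.2 h)] at h1
  exact hyw h1

/-- A normal subgroup with nontrivial image has an image which contains the alternating group. -/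
theorem alt_le_map_normal (h5 : 5 ≤ Nat.card Ω) (φ : Γ →* Perm Ω)
    (hφ : alternatingGroup Ω ≤ φ.range) (N : Subgroup Γ) [hN : N.Normal]
    (hne : ∃ s ∈ N, φ s ≠ 1) : alternatingGroup Ω ≤ N.map φ := by
  obtain ⟨s, hs, hs1⟩ := hne
  have hsimple : IsSimpleGroup (alternatingGroup Ω) := alternatingGroup.isSimpleGroup h5
  let H : Subgroup (alternatingGroup Ω) := (N.map φ).subgroupOf (alternatingGroup Ω)
  have hH : H.Normal := by
    refine ⟨fun n hn g => ?_⟩
    obtain ⟨m, hm, hmn⟩ := Subgroup.mem_subgroupOf.1 hn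
    obtain ⟨g', hg'⟩ := hφ g.2
    refine Subgroup.mem_subgroupOf.2 ⟨g' * m * g'⁻¹, hN.conj_mem m hm g', ?_⟩
    rw [map_mul, map_mul, map_inv, hmn, hg']
    rfl
  rcases hH.eq_bot_or_eq_top with h | h
  · exfalso
    apply hs1
    refine centralizes_eq_one (by omega) (φ s) fun a ha => ?_
    obtain ⟨g, hg⟩ := hφ ha
    -- the commutator is in the image and in the alternating group
    have h1 : φ s * a * (φ s)⁻¹ * a⁻¹ ∈ N.map φ := by
      refine ⟨s * (g * s⁻¹ * g⁻¹), N.mul_mem hs (hN.conj_mem _ (N.inv_mem hs) g), ?_⟩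
      rw [map_mul, map_mul, map_mul, map_inv, map_inv, hg]
      group
    have h2 : φ s * a * (φ s)⁻¹ * a⁻¹ ∈ alternatingGroup Ω := by
      rw [Perm.mem_alternatingGroup] at ha ⊢
      simp only [Perm.sign_mul, Perm.sign_inv, ha, mul_one]
      exact Int.units_mul_self _
    have h3 : (⟨_, h2⟩ : alternatingGroup Ω) ∈ H := Subgroup.mem_subgroupOf.2 h1
    rw [h, Subgroup.mem_bot] at h3
    have h4 := congrArg Subtype.val h3
    change φ s * a * (φ s)⁻¹ * a⁻¹ = 1 at h4
    have h5' := mul_eq_one_iff_eq_inv.1 h4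
    rw [inv_inv] at h5'
    have h6 := eq_mul_of_mul_inv_eq h5'
    rw [h6]
  · intro a ha
    have h1 : (⟨a, ha⟩ : alternatingGroup Ω) ∈ H := by rw [h]; trivial
    exact Subgroup.mem_subgroupOf.1 h1

end one

section fam

variable {Γ ι : Type*} [Group Γ] {Ω : ι → Type*} [∀ i, Fintype (Ω i)]
  [∀ i, DecidableEq (Ω i)]
  (φ : ∀ i, Γ →* Perm (Ω i))

/-- The elements which are trivial for all indices of the set. -/
def kerOn (S : Finset ι) : Subgroup Γ := ⨅ j ∈ S, (φ j).ker

omit [∀ i, Fintype (Ω i)] [∀ i, DecidableEq (Ω i)] in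
theorem mem_kerOn {S : Finset ι} {s : Γ} : s ∈ kerOn φ S ↔ ∀ j ∈ S, φ j s = 1 := by
  unfold kerOn
  simp only [Subgroup.mem_iInf, MonoidHom.mem_ker]

instance kerOn_normal (S : Finset ι) : (kerOn φ S).Normal := by
  refine ⟨fun n hn g => ?_⟩
  rw [mem_kerOn] at hn ⊢
  intro j hj
  rw [map_mul, map_mul, hn j hj, mul_one, map_inv, mul_inv_cancel]

variable (h5 : ∀ i, 5 ≤ Nat.card (Ω i)) (hφ : ∀ i, alternatingGroup (Ω i) ≤ (φ i).range)
  (hind : ∀ i j, i ≠ j → ∃ s, φ j s = 1 ∧ φ i s ≠ 1)

include h5 hφ hind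

theorem alt_le_kerOn (S : Finset ι) : ∀ i ∉ S, alternatingGroup (Ω i) ≤ (kerOn φ S).map (φ i) := by
  classical
  induction S using Finset.induction_on with
  | empty =>
    intro i _
    have h1 : kerOn φ (∅ : Finset ι) = ⊤ := by
      rw [eq_top_iff]
      intro s _
      rw [mem_kerOn]
      intro j hj
      exact absurd hj (Finset.notMem_empty j)
    rw [h1, ← MonoidHom.range_eq_map]
    exact hφ i
  | insert j S hj ih =>
    intro i hi
    rw [Finset.mem_insert, not_or] at hi
    have h1 := ih i hi.2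
    have h2 : alternatingGroup (Ω i) ≤ ((φ j).ker).map (φ i) := by
      obtain ⟨s, hs, hs'⟩ := hind i j hi.1
      exact alt_le_map_normal (h5 i) (φ i) (hφ i) _ ⟨s, MonoidHom.mem_ker.2 hs, hs'⟩
    have h3 : ⁅kerOn φ S, (φ j).ker⁆ ≤ kerOn φ (insert j S) := by
      intro s hs
      have h4 : s ∈ kerOn φ S := Subgroup.commutator_le_left _ _ hs
      have h6 : s ∈ (φ j).ker := Subgroup.commutator_le_right _ _ hs
      rw [mem_kerOn] at h4 ⊢
      intro l hl
      rcases Finset.mem_insert.1 hl with rfl | hl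
      · exact MonoidHom.mem_ker.1 h6
      · exact h4 l hl
    calc alternatingGroup (Ω i) = ⁅alternatingGroup (Ω i), alternatingGroup (Ω i)⁆ :=
          (commutator_alternatingGroup_eq_self (h5 i)).symm
      _ ≤ ⁅(kerOn φ S).map (φ i), ((φ j).ker).map (φ i)⁆ := Subgroup.commutator_mono h1 h2
      _ = (⁅kerOn φ S, (φ j).ker⁆).map (φ i) := (Subgroup.map_commutator _ _ _).symm
      _ ≤ (kerOn φ (insert j S)).map (φ i) := Subgroup.map_mono h3

theorem joint_alt (S : Finset ι) : ∀ T : Finset ι, Disjoint S T →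
    ∀ π : ∀ i, Perm (Ω i), (∀ i ∈ S, π i ∈ alternatingGroup (Ω i)) →
    ∃ s ∈ kerOn φ T, ∀ i ∈ S, φ i s = π i := by
  classical
  induction S using Finset.induction_on with
  | empty =>
    intro T _ π _
    exact ⟨1, Subgroup.one_mem _, fun i hi => absurd hi (Finset.notMem_empty i)⟩
  | insert i S hi ih =>
    intro T hT π hπ
    rw [Finset.disjoint_insert_left] at hT
    obtain ⟨s, hs, hs'⟩ := ih (insert i T) (by
      rw [Finset.disjoint_insert_right]
      exact ⟨hi, hT.2⟩) π fun j hj => hπ j (Finset.mem_insert_of_mem hj)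
    obtain ⟨g, hg, hg'⟩ := alt_le_kerOn φ h5 hφ hind (S ∪ T) i (by
      rw [Finset.mem_union, not_or]
      exact ⟨hi, hT.1⟩) (hπ i (Finset.mem_insert_self i S))
    rw [SetLike.mem_coe, mem_kerOn] at hg
    rw [mem_kerOn] at hs
    refine ⟨s * g, ?_, fun j hj => ?_⟩
    · rw [mem_kerOn]
      intro j hj
      rw [map_mul, hs j (Finset.mem_insert_of_mem hj), hg j (Finset.mem_union_right _ hj), mul_one]
    · rw [map_mul]
      rcases Finset.mem_insert.1 hj with rfl | hj
      · rw [hs j (Finset.mem_insert_self j T), one_mul, hg']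
      · rw [hs' j hj, hg j (Finset.mem_union_left _ hj), mul_one]

/-- The homomorphisms which factor through a small monoid. -/
theorem prod_card_le {M' : Type*} [Monoid M'] [Finite M'] (ψ : Γ →* M') (S : Finset ι)
    (hS : ∀ i ∈ S, ∀ s, ψ s = 1 → φ i s = 1) :
    ∏ i ∈ S, Nat.card (alternatingGroup (Ω i)) ≤ Nat.card M' := by
  classical
  have h1 : ∀ π : (∀ i : S, alternatingGroup (Ω i)), ∃ s, ∀ i : S, φ i s = (π i : Perm (Ω i)) := by
    intro π
    obtain ⟨s, -, hs⟩ := joint_alt φ h5 hφ hind S ∅ (Finset.disjoint_empty_right _)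
      (fun i => if h : i ∈ S then ((π ⟨i, h⟩ : alternatingGroup (Ω i)) : Perm (Ω i)) else 1)
      (fun i hi => by
        rw [dif_pos hi]
        exact (π ⟨i, hi⟩).2)
    refine ⟨s, fun i => ?_⟩
    rw [hs i i.2, dif_pos i.2]
  choose s hs using h1
  have hinj : Function.Injective fun π => ψ (s π) := by
    intro π π' h
    have h' : ψ (s π) = ψ (s π') := h
    have h2 : ψ ((s π)⁻¹ * s π') = 1 := by
      rw [map_mul, ← h', ← map_mul, inv_mul_cancel, map_one]
    funext i
    apply Subtype.val_injective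
    have h3 := hS i i.2 _ h2
    rw [map_mul, map_inv, hs, hs] at h3
    exact inv_mul_eq_one.1 h3
  have h2 := Nat.card_le_card_of_injective _ hinj
  rw [Nat.card_pi] at h2
  rwa [Finset.prod_coe_sort S (fun i => Nat.card (alternatingGroup (Ω i)))] at h2

end fam

end Pool.Agent.U442.Htj
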