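import Mathlib

/-!
Representations with integral matrices, and the representations which are trivial modulo two
wherever a given one is trivial modulo two.
-/

set_option autoImplicit false

namespace Pool.Agent.U442.Htj

open scoped TensorProduct

/-- The representation `τ` on `W` has the matrices `t s`, over the 2-adic integers, in some basis. -/
def HasMatrices {G W : Type*} [Group G] [AddCommGroup W] [Module ℚ_[2] W] {d : ℕ}
    (τ : Representation ℚ_[2] G W) (t : G →* Matrix (Fin d) (Fin d) ℤ_[2]) : Prop :=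
  ∃ b : Module.Basis (Fin d) ℚ_[2] W, ∀ s, LinearMap.toMatrix b b (τ s) =
    (t s).map (algebraMap ℤ_[2] ℚ_[2])

/-- `s` acts trivially modulo two. -/
def TrivialModTwo {G : Type*} [Group G] {d : ℕ} (t : G →* Matrix (Fin d) (Fin d) ℤ_[2]) (s : G) :
    Prop :=
  (t s).map (PadicInt.toZMod (p := 2)) = 1

/-- The representation `τ` on a `ℚ_2` space has a lattice over the 2-adic integers which is stable, and on
which all the elements of the group which are trivial modulo two for `t` are trivial modulo two. -/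
def GovernedBy {G W : Type*} [Group G] [AddCommGroup W] [Module ℚ_[2] W] {d : ℕ}
    (t : G →* Matrix (Fin d) (Fin d) ℤ_[2]) (τ : Representation ℚ_[2] G W) : Prop :=
  ∃ (d' : ℕ) (t' : G →* Matrix (Fin d') (Fin d') ℤ_[2]), HasMatrices τ t' ∧
    ∀ s, TrivialModTwo t s → TrivialModTwo t' s

section

variable {G W W' : Type*} [Group G] [AddCommGroup W] [Module ℚ_[2] W] [AddCommGroup W']
  [Module ℚ_[2] W'] {d : ℕ} {t : G →* Matrix (Fin d) (Fin d) ℤ_[2]}

/-- A general criterion with bases indexed by a finite type. -/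
theorem governedBy_of {κ : Type*} [Fintype κ] [DecidableEq κ] (b : Module.Basis κ ℚ_[2] W)
    {τ : Representation ℚ_[2] G W} (t' : G →* Matrix κ κ ℤ_[2])
    (h1 : ∀ s, LinearMap.toMatrix b b (τ s) = (t' s).map (algebraMap ℤ_[2] ℚ_[2]))
    (h2 : ∀ s, TrivialModTwo t s → (t' s).map (PadicInt.toZMod (p := 2)) = 1) :
    GovernedBy t τ := by
  classical
  let e := Fintype.equivFin κ
  refine ⟨Fintype.card κ, ((Matrix.reindexAlgEquiv ℤ_[2] ℤ_[2] e).toAlgHom.toRingHom.toMonoidHom).comp t',
    ⟨b.reindex e, fun s => ?_⟩, fun s hs => ?_⟩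
  · ext i j
    have h3 := congrFun (congrFun (h1 s) (e.symm i)) (e.symm j)
    rw [LinearMap.toMatrix_apply] at h3 ⊢
    simpa using h3
  · have h3 := h2 s hs
    unfold TrivialModTwo
    ext i j
    have h4 := congrFun (congrFun h3 (e.symm i)) (e.symm j)
    simpa [Matrix.one_apply] using h4

theorem governedBy_self {τ : Representation ℚ_[2] G W} (h : HasMatrices τ t) : GovernedBy t τ :=
  ⟨d, t, h, fun _ hs => hs⟩

/-- Twists by characters with values in the units of the 2-adic integers; the trivial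
representation of rank one. -/
theorem governedBy_char (χ : G →* ℚ_[2]) (hχ : ∀ s, ‖χ s‖ ≤ 1)
    (τ : Representation ℚ_[2] G ℚ_[2]) (hτ : ∀ s x, τ s x = χ s * x) : GovernedBy t τ := by
  have hz : ∀ s, ∃ z : ℤ_[2], (z : ℚ_[2]) = χ s := fun s => ⟨⟨χ s, hχ s⟩, rfl⟩
  choose z hz using hz
  have hz1 : z 1 = 1 := by
    apply Subtype.val_injective
    show ((z 1 : ℤ_[2]) : ℚ_[2]) = ((1 : ℤ_[2]) : ℚ_[2])
    rw [hz, map_one, PadicInt.coe_one]
  have hzm : ∀ s s', z (s * s') = z s * z s' := by
    intro s s'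
    apply Subtype.val_injective
    show ((z (s * s') : ℤ_[2]) : ℚ_[2]) = ((z s * z s' : ℤ_[2]) : ℚ_[2])
    rw [PadicInt.coe_mul, hz, hz, hz, map_mul]
  refine governedBy_of (Module.Basis.singleton (Fin 1) ℚ_[2])
    { toFun := fun s => Matrix.scalar (Fin 1) (z s)
      map_one' := by rw [hz1, map_one]
      map_mul' := fun s s' => by rw [hzm, map_mul] } (fun s => ?_) (fun s _ => ?_)
  · ext i j
    rw [LinearMap.toMatrix_apply]
    have hij : i = j := Subsingleton.elim _ _
    subst hij
    simp [hτ, hz]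
  · have h1 : z s * z s⁻¹ = 1 := by rw [← hzm, mul_inv_cancel, hz1]
    have h2 : (PadicInt.toZMod (p := 2)) (z s) * (PadicInt.toZMod (p := 2)) (z s⁻¹) = 1 := by
      rw [← map_mul, h1, map_one]
    have h3 : ∀ a b : ZMod 2, a * b = 1 → a = 1 := by decide
    have h4 := h3 _ _ h2
    ext i j
    have hij : i = j := Subsingleton.elim _ _
    subst hij
    simpa using h4

theorem governedBy_prod {τ : Representation ℚ_[2] G W} {τ' : Representation ℚ_[2] G W'}
    (h : GovernedBy t τ) (h' : GovernedBy t τ') : GovernedBy t (τ.prod τ') := by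
  obtain ⟨d₁, t₁, ⟨b₁, hb₁⟩, h₁⟩ := h
  obtain ⟨d₂, t₂, ⟨b₂, hb₂⟩, h₂⟩ := h'
  refine governedBy_of (b₁.prod b₂)
    { toFun := fun s => Matrix.fromBlocks (t₁ s) 0 0 (t₂ s)
      map_one' := by rw [map_one, map_one, Matrix.fromBlocks_one]
      map_mul' := fun s s' => by
        rw [map_mul, map_mul, Matrix.fromBlocks_multiply]
        simp } (fun s => ?_) (fun s hs => ?_)
  · have e1 := hb₁ s
    have e2 := hb₂ s
    ext i j
    rw [LinearMap.toMatrix_apply]
    rcases i with i | i <;> rcases j with j | j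
    · have := congrFun (congrFun e1 i) j
      rw [LinearMap.toMatrix_apply] at this
      simpa using this
    · simp
    · simp
    · have := congrFun (congrFun e2 i) j
      rw [LinearMap.toMatrix_apply] at this
      simpa using this
  · have e1 := h₁ s hs
    have e2 := h₂ s hs
    unfold TrivialModTwo at e1 e2
    show (Matrix.fromBlocks (t₁ s) 0 0 (t₂ s)).map _ = 1
    rw [Matrix.fromBlocks_map, e1, e2]
    simp

theorem governedBy_tprod {τ : Representation ℚ_[2] G W} {τ' : Representation ℚ_[2] G W'}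
    (h : GovernedBy t τ) (h' : GovernedBy t τ') : GovernedBy t (τ.tprod τ') := by
  obtain ⟨d₁, t₁, ⟨b₁, hb₁⟩, h₁⟩ := h
  obtain ⟨d₂, t₂, ⟨b₂, hb₂⟩, h₂⟩ := h'
  refine governedBy_of (b₁.tensorProduct b₂)
    { toFun := fun s => Matrix.kroneckerMap (· * ·) (t₁ s) (t₂ s)
      map_one' := by rw [map_one, map_one]; exact Matrix.one_kronecker_one
      map_mul' := fun s s' => by
        rw [map_mul, map_mul]
        exact Matrix.mul_kronecker_mul _ _ _ _ } (fun s => ?_) (fun s hs => ?_)
  · rw [Representation.tprod_apply, TensorProduct.toMatrix_map, hb₁, hb₂]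
    ext i j
    simp [Matrix.kroneckerMap_apply]
  · have e1 := h₁ s hs
    have e2 := h₂ s hs
    unfold TrivialModTwo at e1 e2
    have e3 : (1 : Matrix (Fin d₁ × Fin d₂) (Fin d₁ × Fin d₂) (ZMod 2)) =
        Matrix.kroneckerMap (· * ·) (1 : Matrix (Fin d₁) (Fin d₁) (ZMod 2))
          (1 : Matrix (Fin d₂) (Fin d₂) (ZMod 2)) := Matrix.one_kronecker_one.symm
    rw [e3, ← e1, ← e2]
    ext i j
    simp [Matrix.kroneckerMap_apply]

theorem governedBy_dual {τ : Representation ℚ_[2] G W} (h : GovernedBy t τ) :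
    GovernedBy t τ.dual := by
  obtain ⟨d₁, t₁, ⟨b₁, hb₁⟩, h₁⟩ := h
  refine governedBy_of b₁.dualBasis
    { toFun := fun s => (t₁ s⁻¹).transpose
      map_one' := by rw [inv_one, map_one, Matrix.transpose_one]
      map_mul' := fun s s' => by
        rw [mul_inv_rev, map_mul, Matrix.transpose_mul] } (fun s => ?_) (fun s hs => ?_)
  · rw [Representation.dual_apply]
    have e1 := hb₁ s⁻¹
    ext i j
    have := congrFun (congrFun e1 j) i
    rw [LinearMap.toMatrix_apply] at this ⊢
    simpa [Module.Dual.transpose_apply] using this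
  · have e1 := h₁ s hs
    unfold TrivialModTwo at e1
    have e2 : (t₁ s⁻¹).map (PadicInt.toZMod (p := 2)) = 1 := by
      have e3 : (t₁ s).map (PadicInt.toZMod (p := 2)) * (t₁ s⁻¹).map (PadicInt.toZMod (p := 2)) =
          1 := by
        have e4 := (PadicInt.toZMod (p := 2)).mapMatrix.map_mul (t₁ s) (t₁ s⁻¹)
        rw [← map_mul, mul_inv_cancel, map_one, map_one] at e4
        exact e4.symm
      rw [e1, one_mul] at e3
      exact e3
    show (t₁ s⁻¹).transpose.map _ = 1
    rw [Matrix.transpose_map, e2, Matrix.transpose_one]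

end

end Pool.Agent.U442.Htj
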