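import Pool.Agent.U442.Htj.Sub

/-!
A large Galois group does not act through a small group of matrices modulo two.
-/

set_option autoImplicit false

namespace Pool.Agent.U442.Htj

open Polynomial
open scoped Classical

theorem pigeon {L F : Type} [Field L] [Field F] [Algebra L F] {g : L[X]} {n d : ℕ}
    (hn : Nat.card (g.rootSet F) = n) (hn2 : 2 ≤ n)
    (hG : ∀ π : Equiv.Perm (g.rootSet F), Equiv.Perm.sign π = 1 →
      ∃ s : F ≃ₐ[L] F, ∀ x : g.rootSet F, s (x : F) = (π x : F))
    (t : (F ≃ₐ[L] F) →* Matrix (Fin d) (Fin d) ℤ_[2]) (hd : 2 ^ (d ^ 2 + 1) < n.factorial) :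
    ∃ s : F ≃ₐ[L] F, TrivialModTwo t s ∧ ∃ x ∈ g.rootSet F, s x ≠ x := by
  by_contra hcon
  push Not at hcon
  have hcon' : ∀ s : F ≃ₐ[L] F, TrivialModTwo t s → ∀ x ∈ g.rootSet F, s x = x := hcon
  have hG' : ∀ π : alternatingGroup (g.rootSet F), ∃ s : F ≃ₐ[L] F, ∀ x : g.rootSet F,
      s (x : F) = ((π : Equiv.Perm (g.rootSet F)) x : F) := fun π =>
    hG π (Equiv.Perm.mem_alternatingGroup.1 π.2)
  choose s hs using hG'
  have hinj : Function.Injective fun π : alternatingGroup (g.rootSet F) =>
      (t (s π)).map (PadicInt.toZMod (p := 2)) := by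
    intro π π' h
    have h' : (t (s π)).map (PadicInt.toZMod (p := 2)) =
        (t (s π')).map (PadicInt.toZMod (p := 2)) := h
    have hmul : ∀ A B : Matrix (Fin d) (Fin d) ℤ_[2], (A * B).map (PadicInt.toZMod (p := 2)) =
        A.map (PadicInt.toZMod (p := 2)) * B.map (PadicInt.toZMod (p := 2)) := fun A B =>
      (PadicInt.toZMod (p := 2)).mapMatrix.map_mul A B
    have h1 : TrivialModTwo t ((s π)⁻¹ * s π') := by
      unfold TrivialModTwo
      rw [map_mul, hmul, ← h', ← hmul, ← map_mul, inv_mul_cancel, map_one]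
      exact (PadicInt.toZMod (p := 2)).mapMatrix.map_one
    have h2 := hcon' _ h1
    apply Subtype.val_injective
    ext x
    rw [← hs, ← hs]
    have h3 := h2 x x.2
    have h4 := congrArg (s π) h3
    rw [AlgEquiv.mul_apply] at h4
    have h5 : s π ((s π)⁻¹ (s π' (x : F))) = s π' (x : F) := (s π).apply_symm_apply _
    rw [h5] at h4
    exact h4.symm
  have hcard : Fintype.card (g.rootSet F) = n := by
    rw [← Nat.card_eq_fintype_card, hn]
  have hle := Fintype.card_le_of_injective _ hinj
  have h1 : Fintype.card (Matrix (Fin d) (Fin d) (ZMod 2)) = 2 ^ d ^ 2 := by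
    rw [← Nat.card_eq_fintype_card]
    change Nat.card (Fin d → Fin d → ZMod 2) = _
    rw [Nat.card_eq_fintype_card, Fintype.card_fun, Fintype.card_fun, ZMod.card, Fintype.card_fin,
      ← pow_mul, sq]
  have : Nontrivial (g.rootSet F) := by
    rw [← Fintype.one_lt_card_iff_nontrivial, hcard]
    omega
  have h2 : 2 * Fintype.card (alternatingGroup (g.rootSet F)) = n.factorial := by
    rw [two_mul_card_alternatingGroup, Fintype.card_perm, hcard]
  rw [h1] at hle
  have h3 : n.factorial ≤ 2 ^ (d ^ 2 + 1) := by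
    rw [← h2, pow_succ]
    omega
  omega

end Pool.Agent.U442.Htj
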