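import Pool.Agent.U442.Htj.Lat

/-!
Subrepresentations and quotients of the representations governed by an integral representation.
-/

set_option autoImplicit false

namespace Pool.Agent.U442.Htj

open scoped TensorProduct

section sub

variable {G W N : Type*} [Group G] [AddCommGroup W] [Module ℚ_[2] W] [AddCommGroup N]
  [Module ℚ_[2] N] {d : ℕ} {t : G →* Matrix (Fin d) (Fin d) ℤ_[2]}

theorem mul_coord_norm {d' : ℕ} (A : Matrix (Fin d') (Fin d') ℤ_[2]) (c : Fin d' → ℚ_[2])
    (hc : ∀ i, ‖c i‖ ≤ 1) (i : Fin d') :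
    ‖∑ j, algebraMap ℤ_[2] ℚ_[2] (A i j) * c j‖ ≤ 1 := by
  have h1 : ∀ j, ∃ z : ℤ_[2], (z : ℚ_[2]) = c j := fun j => ⟨⟨c j, hc j⟩, rfl⟩
  choose z hz using h1
  have h2 : ∑ j, algebraMap ℤ_[2] ℚ_[2] (A i j) * c j =
      ((∑ j, A i j * z j : ℤ_[2]) : ℚ_[2]) := by
    rw [PadicInt.coe_sum]
    refine Finset.sum_congr rfl fun j _ => ?_
    rw [PadicInt.coe_mul, hz]
    rfl
  rw [h2]
  exact PadicInt.norm_le_one _

theorem governedBy_sub {τ : Representation ℚ_[2] G W} {ν : Representation ℚ_[2] G N}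
    (h : GovernedBy t τ) (j : N →ₗ[ℚ_[2]] W) (hj : Function.Injective j)
    (hc : ∀ s x, j (ν s x) = τ s (j x)) : GovernedBy t ν := by
  classical
  obtain ⟨d', t', ⟨b, hb⟩, h2⟩ := h
  let _ : Module ℤ_[2] N := Module.compHom N (algebraMap ℤ_[2] ℚ_[2])
  have : IsScalarTower ℤ_[2] ℚ_[2] N := ⟨fun a c x => by
    rw [Algebra.smul_def, mul_smul]; rfl⟩
  have hsm : ∀ (z : ℤ_[2]) (x : N), z • x = (z : ℚ_[2]) • x := fun z x => rfl
  -- the lattice
  let L : Submodule ℤ_[2] N :=
    { carrier := {x | ∀ i, ‖b.repr (j x) i‖ ≤ 1}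
      add_mem' := fun {x y} hx hy i => by
        rw [map_add, map_add, Finsupp.add_apply]
        exact (Padic.nonarchimedean _ _).trans (max_le (hx i) (hy i))
      zero_mem' := fun i => by simp
      smul_mem' := fun z x hx i => by
        rw [hsm, map_smul, map_smul, Finsupp.smul_apply, smul_eq_mul, norm_mul]
        exact mul_le_one₀ (PadicInt.norm_le_one z) (norm_nonneg _) (hx i) }
  have hL : ∀ x, x ∈ L ↔ ∀ i, ‖b.repr (j x) i‖ ≤ 1 := fun x => Iff.rfl
  -- the coordinates
  let φ : L →ₗ[ℤ_[2]] (Fin d' → ℤ_[2]) :=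
    { toFun := fun x i => ⟨b.repr (j x) i, x.2 i⟩
      map_add' := fun x y => by
        funext i
        apply Subtype.val_injective
        show b.repr (j ((x + y : L) : N)) i = _
        rw [Submodule.coe_add, map_add, map_add, Finsupp.add_apply]
        rfl
      map_smul' := fun z x => by
        funext i
        apply Subtype.val_injective
        show b.repr (j ((z • x : L) : N)) i = _
        rw [Submodule.coe_smul, hsm, map_smul, map_smul, Finsupp.smul_apply]
        rfl }
  have hφ : ∀ x i, ((φ x i : ℤ_[2]) : ℚ_[2]) = b.repr (j x) i := fun x i => rfl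
  have hφi : Function.Injective φ := by
    intro x y hxy
    apply Subtype.val_injective
    apply hj
    apply b.repr.injective
    ext i
    rw [← hφ, ← hφ, hxy]
  obtain ⟨n, ⟨bR⟩⟩ := Submodule.nonempty_basis_of_pid (Pi.basisFun ℤ_[2] (Fin d')) (LinearMap.range φ)
  let bL : Module.Basis (Fin n) ℤ_[2] L := bR.map (LinearEquiv.ofInjective φ hφi).symm
  -- the action on the lattice
  have hact : ∀ s i (x : N), b.repr (τ s (j x)) i =
      ∑ k, algebraMap ℤ_[2] ℚ_[2] (t' s i k) * b.repr (j x) k := by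
    intro s i x
    have e1 := congrFun (LinearMap.toMatrix_mulVec_repr b b (τ s) (j x)) i
    rw [hb] at e1
    rw [← e1]
    rfl
  have hmem : ∀ s (x : N), x ∈ L → ν s x ∈ L := by
    intro s x hx i
    rw [hc, hact]
    exact mul_coord_norm _ _ hx i
  let ρL : G →* Module.End ℤ_[2] L :=
    { toFun := fun s =>
        { toFun := fun x => ⟨ν s x, hmem s x x.2⟩
          map_add' := fun x y => by
            apply Subtype.val_injective
            show ν s ((x + y : L) : N) = ν s x + ν s y
            rw [Submodule.coe_add, map_add]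
          map_smul' := fun z x => by
            apply Subtype.val_injective
            show ν s ((z • x : L) : N) = z • ν s x
            rw [Submodule.coe_smul, hsm, map_smul]
            rfl }
      map_one' := by
        ext x
        show ν 1 (x : N) = x
        rw [map_one]
        rfl
      map_mul' := fun s s' => by
        ext x
        show ν (s * s') (x : N) = ν s (ν s' x)
        rw [map_mul]
        rfl }
  have hρL : ∀ s (x : L), ((ρL s x : L) : N) = ν s x := fun s x => rfl
  -- the rational basis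
  have hli : LinearIndependent ℚ_[2] (fun i => (bL i : N)) := by
    have h3 : LinearIndependent ℤ_[2] (fun i => (bL i : N)) :=
      bL.linearIndependent.map' L.subtype (Submodule.ker_subtype _)
    exact (LinearIndependent.iff_fractionRing ℤ_[2] ℚ_[2]).1 h3
  have hscale : ∀ x : N, ∃ m : ℕ, (2 : ℚ_[2]) ^ m • x ∈ L := by
    intro x
    have h3 : ∀ i, ∃ m : ℕ, ∀ m' ≥ m, ‖(2 : ℚ_[2]) ^ m' * b.repr (j x) i‖ ≤ 1 := by
      intro i
      have h4 : Filter.Tendsto (fun m : ℕ => (2 : ℝ)⁻¹ ^ m * ‖b.repr (j x) i‖) Filter.atTop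
          (nhds 0) := by
        have := (tendsto_pow_atTop_nhds_zero_of_lt_one (r := (2 : ℝ)⁻¹) (by norm_num)
          (by norm_num)).mul_const ‖b.repr (j x) i‖
        rwa [zero_mul] at this
      have h5 := (h4.eventually (gt_mem_nhds (show (0 : ℝ) < 1 by norm_num)))
      obtain ⟨m, hm⟩ := Filter.eventually_atTop.1 h5
      refine ⟨m, fun m' hm' => ?_⟩
      have h6 := (hm m' hm').le
      rw [norm_mul, norm_pow]
      have h7 : ‖(2 : ℚ_[2])‖ = (2 : ℝ)⁻¹ := by
        have := Padic.norm_p (p := 2)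
        exact_mod_cast this
      rw [h7]
      exact h6
    choose m hm using h3
    refine ⟨∑ i, m i, fun i => ?_⟩
    rw [map_smul, map_smul, Finsupp.smul_apply, smul_eq_mul]
    exact hm i _ (Finset.single_le_sum (f := m) (fun _ _ => Nat.zero_le _) (Finset.mem_univ i))
  have hsp : ⊤ ≤ Submodule.span ℚ_[2] (Set.range fun i => (bL i : N)) := by
    intro x _
    obtain ⟨m, hm⟩ := hscale x
    have h3 : ((⟨_, hm⟩ : L) : N) = ∑ i, (bL.repr ⟨_, hm⟩ i : ℤ_[2]) • (bL i : N) := by
      conv_lhs => rw [← bL.sum_repr ⟨_, hm⟩]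
      rw [AddSubmonoidClass.coe_finsetSum]
      rfl
    have h4 : (2 : ℚ_[2]) ^ m • x ∈ Submodule.span ℚ_[2] (Set.range fun i => (bL i : N)) := by
      have h5 : (2 : ℚ_[2]) ^ m • x = ∑ i, (bL.repr ⟨_, hm⟩ i : ℤ_[2]) • (bL i : N) := h3
      rw [h5]
      refine Submodule.sum_mem _ fun i _ => ?_
      rw [hsm]
      exact Submodule.smul_mem _ _ (Submodule.subset_span ⟨i, rfl⟩)
    have h5 : x = ((2 : ℚ_[2]) ^ m)⁻¹ • ((2 : ℚ_[2]) ^ m • x) := by
      rw [smul_smul, inv_mul_cancel₀ (pow_ne_zero _ two_ne_zero), one_smul]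
    rw [h5]
    exact Submodule.smul_mem _ _ h4
  let bQ : Module.Basis (Fin n) ℚ_[2] N := Module.Basis.mk hli hsp
  have hbQ : ∀ i, bQ i = (bL i : N) := fun i => Module.Basis.mk_apply hli hsp i
  have hrepr : ∀ (x : L) i, bQ.repr (x : N) i = ((bL.repr x i : ℤ_[2]) : ℚ_[2]) := by
    intro x i
    have h3 : (x : N) = ∑ k, ((bL.repr x k : ℤ_[2]) : ℚ_[2]) • bQ k := by
      conv_lhs => rw [← bL.sum_repr x]
      rw [AddSubmonoidClass.coe_finsetSum]
      refine Finset.sum_congr rfl fun k _ => ?_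
      rw [hbQ]
      rfl
    have h4 : bQ.repr (x : N) = bQ.repr (∑ k, ((bL.repr x k : ℤ_[2]) : ℚ_[2]) • bQ k) := by
      rw [← h3]
    rw [h4, Module.Basis.repr_sum_self]
  let tN : G →* Matrix (Fin n) (Fin n) ℤ_[2] :=
    ((LinearMap.toMatrixAlgEquiv bL).toAlgHom.toRingHom.toMonoidHom).comp ρL
  have htN : ∀ s i k, tN s i k = bL.repr (ρL s (bL k)) i := by
    intro s i k
    exact LinearMap.toMatrixAlgEquiv_apply bL (ρL s) i k
  refine ⟨n, tN, ⟨bQ, fun s => ?_⟩, fun s hs => ?_⟩
  · ext i k
    rw [LinearMap.toMatrix_apply, Matrix.map_apply, htN, hbQ]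
    have h3 := hrepr (ρL s (bL k)) i
    rw [hρL] at h3
    exact h3
  · have h3 := h2 s hs
    unfold TrivialModTwo at h3 ⊢
    -- `(s - 1) x` is divisible by two in the lattice
    have hdiv : ∀ x : L, ∃ y : L, ρL s x - x = (2 : ℤ_[2]) • y := by
      intro x
      have hA : ∀ i k, ∃ z : ℤ_[2], t' s i k = (if i = k then 1 else 0) + 2 * z := by
        intro i k
        have e1 := congrFun (congrFun h3 i) k
        rw [Matrix.map_apply, Matrix.one_apply] at e1
        have e2 : PadicInt.toZMod (p := 2) (t' s i k - (if i = k then 1 else 0)) = 0 := by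
          rw [map_sub, e1]
          split_ifs <;> simp
        have e3 : t' s i k - (if i = k then 1 else 0) ∈ Ideal.span {((2 : ℕ) : ℤ_[2])} := by
          rw [← PadicInt.maximalIdeal_eq_span_p, ← PadicInt.ker_toZMod]
          exact e2
        obtain ⟨z, hz⟩ := Ideal.mem_span_singleton.1 e3
        refine ⟨z, ?_⟩
        rw [Nat.cast_ofNat] at hz
        rw [← hz]
        ring
      choose z hz using hA
      have hy : (2 : ℚ_[2])⁻¹ • (ν s x - (x : N)) ∈ L := by
        intro i
        have e1 : b.repr (j ((2 : ℚ_[2])⁻¹ • (ν s x - (x : N)))) i =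
            ∑ k, algebraMap ℤ_[2] ℚ_[2] (z i k) * b.repr (j x) k := by
          rw [map_smul, map_smul, Finsupp.smul_apply, smul_eq_mul, map_sub, map_sub,
            Finsupp.sub_apply, hc, hact]
          have e2 : ∀ k, algebraMap ℤ_[2] ℚ_[2] (t' s i k) =
              (if i = k then 1 else 0) + 2 * algebraMap ℤ_[2] ℚ_[2] (z i k) := by
            intro k
            rw [hz, map_add, map_mul, map_ofNat]
            split_ifs <;> simp
          simp only [e2, add_mul, Finset.sum_add_distrib, ite_mul, one_mul, zero_mul,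
            Finset.sum_ite_eq, Finset.mem_univ, if_true]
          rw [add_sub_cancel_left, Finset.mul_sum]
          refine Finset.sum_congr rfl fun k _ => ?_
          rw [mul_assoc, ← mul_assoc, inv_mul_cancel₀ (two_ne_zero), one_mul]
        rw [e1]
        exact mul_coord_norm z _ x.2 i
      refine ⟨⟨_, hy⟩, ?_⟩
      apply Subtype.val_injective
      show ν s x - (x : N) = (2 : ℤ_[2]) • ((2 : ℚ_[2])⁻¹ • (ν s x - (x : N)))
      rw [hsm, smul_smul]
      have e2 : ((2 : ℤ_[2]) : ℚ_[2]) * (2 : ℚ_[2])⁻¹ = 1 := by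
        have : ((2 : ℤ_[2]) : ℚ_[2]) = 2 := by norm_cast
        rw [this]
        exact mul_inv_cancel₀ two_ne_zero
      rw [e2, one_smul]
    ext i k
    obtain ⟨y, hy⟩ := hdiv (bL k)
    have e1 : ρL s (bL k) = bL k + (2 : ℤ_[2]) • y := by rw [← hy]; abel
    rw [Matrix.map_apply, htN, e1, map_add, map_smul, Finsupp.add_apply, Finsupp.smul_apply,
      Module.Basis.repr_self, map_add, smul_eq_mul, map_mul]
    have e2 : PadicInt.toZMod (p := 2) (2 : ℤ_[2]) = 0 := by
      rw [map_ofNat]
      rfl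
    rw [e2, zero_mul, add_zero, Matrix.one_apply, Finsupp.single_apply]
    by_cases hik : k = i
    · rw [if_pos hik, if_pos hik.symm, map_one]
    · rw [if_neg hik, if_neg (Ne.symm hik), map_zero]

theorem governedBy_quot {τ : Representation ℚ_[2] G W} {ν : Representation ℚ_[2] G N}
    (h : GovernedBy t τ) (q : W →ₗ[ℚ_[2]] N) (hq : Function.Surjective q)
    (hc : ∀ s x, q (τ s x) = ν s (q x)) : GovernedBy t ν := by
  classical
  have : FiniteDimensional ℚ_[2] W := by
    obtain ⟨d', t', ⟨b, hb⟩, h2⟩ := h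
    exact Module.Basis.finiteDimensional_of_finite b
  have : FiniteDimensional ℚ_[2] N := Module.Finite.of_surjective q hq
  have h1 : GovernedBy t ν.dual := by
    refine governedBy_sub (governedBy_dual h) (Module.Dual.transpose (R := ℚ_[2]) q) ?_ ?_
    · intro f g hfg
      ext x
      obtain ⟨y, rfl⟩ := hq x
      exact LinearMap.congr_fun hfg y
    · intro s f
      ext x
      show f (ν s⁻¹ (q x)) = f (q (τ s⁻¹ x))
      rw [hc]
  refine governedBy_sub (governedBy_dual h1) (Module.Dual.eval ℚ_[2] N) ?_ ?_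
  · exact (Module.evalEquiv ℚ_[2] N).injective
  · intro s x
    ext f
    show f (ν s x) = f (ν s⁻¹⁻¹ x)
    rw [inv_inv]

end sub

end Pool.Agent.U442.Htj
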